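import Pool.Agent.R556.CP.Defs

open MeasureTheory Set
open scoped ENNReal unitInterval

namespace R556.CP

/-! ## combinatorics in general linear orders -/

section gen
variable {α β : Type*} [LinearOrder α] [LinearOrder β]

def gcons (x : α) (h : ℕ → α) : ℕ → α
  | 0 => x
  | i + 1 => h i

def gocc (k : ℕ) (q : ℕ → β) (h : ℕ → α) : Prop :=
  ∀ a < k, ∀ b < k, (h a < h b ↔ q a < q b)

lemma comb {k : ℕ} (hk : 3 ≤ k) {q : ℕ → β} (hq : Set.InjOn q (Set.Iio k))
    (hmax : ∀ j, 1 ≤ j → j < k → q j < q 0) {h : ℕ → α} {x1 x x' : α}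
    (hx : gocc k q (gcons x h)) (hx' : gocc k q (gcons x' (gcons x1 h)))
    (hn : ¬ gocc k q (gcons x1 h)) :
    x1 < h 0 ∧ h 0 ≤ h (k-3) ∧ (∀ x2, ¬ gocc k q (gcons x2 (gcons x1 h)) → x2 ≤ h (k-3)) ∧
      ∀ y1, y1 < h 0 → ¬ gocc k q (gcons y1 h) ∧ ∀ y2, y1 < y2 → y2 ≤ h (k-3) →
        ¬ gocc k q (gcons y2 (gcons y1 h)) ∧ ∀ y3, ¬ gocc k q (gcons y3 (gcons y2 (gcons y1 h))) := by
  -- relations
  have R1 : ∀ a b, a + 1 < k → b + 1 < k → (h a < h b ↔ q (a+1) < q (b+1)) :=
    fun a b ha hb => hx (a+1) ha (b+1) hb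
  have R2 : ∀ a b, a + 2 < k → b + 2 < k → (h a < h b ↔ q (a+2) < q (b+2)) :=
    fun a b ha hb => hx' (a+2) ha (b+2) hb
  have R3 : ∀ a, a + 2 < k → (x1 < h a ↔ q 1 < q (a+2)) :=
    fun a ha => hx' 1 (by omega) (a+2) ha
  have R3' : ∀ a, a + 2 < k → (h a < x1 ↔ q (a+2) < q 1) :=
    fun a ha => hx' (a+2) ha 1 (by omega)
  -- x1 is at most some entry
  have hex : ∃ j, j + 1 < k ∧ x1 ≤ h j := by
    by_contra hcon
    push Not at hcon
    apply hn
    intro a ha b hb
    rcases a with _ | a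
    · rcases b with _ | b
      · simp
      · show x1 < h b ↔ q 0 < q (b+1)
        have h1 := hcon b hb
        have h2 := hmax (b+1) (by omega) hb
        exact ⟨fun h' => absurd h' (lt_asymm h1), fun h' => absurd h' (lt_asymm h2)⟩
    · rcases b with _ | b
      · show h a < x1 ↔ q (a+1) < q 0
        exact ⟨fun _ => hmax (a+1) (by omega) ha, fun _ => hcon a ha⟩
      · exact R1 a b ha hb
  -- q (k-1) is the max of q 1, ..., q (k-1)
  obtain ⟨js, hjs, hjmax⟩ : ∃ js, js + 1 < k ∧ ∀ j, j + 1 < k → q (j+1) ≤ q (js+1) := by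
    obtain ⟨js, hjs1, hjs2⟩ := Finset.exists_max_image (Finset.range (k-1)) (fun j => q (j+1))
      ⟨0, by simp; omega⟩
    refine ⟨js, by have := Finset.mem_range.mp hjs1; omega, fun j hj => hjs2 j (by simp; omega)⟩
  have hhmax : ∀ j, j + 1 < k → h j ≤ h js := by
    intro j hj
    by_contra hlt
    rw [not_le] at hlt
    exact absurd ((R1 js j hjs hj).mp hlt) (not_lt.mpr (hjmax j hj))
  have hx1le : x1 ≤ h js := by
    obtain ⟨j, hj1, hj2⟩ := hex
    exact hj2.trans (hhmax j hj1)
  have hjsk : js + 2 = k := by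
    by_contra hne
    have hlt : js + 2 < k := by omega
    -- entry js of x1::h is larger than h js
    have hqlt : q (js+2) < q (js+1) := by
      have h1 := hjmax (js+1) (by omega)
      rcases lt_or_eq_of_le h1 with h2 | h2
      · exact h2
      · have := hq (show js+1+1 ∈ Set.Iio k from hlt) (show js+1 ∈ Set.Iio k from (by show js+1<k; omega)) h2
        omega
    rcases js with _ | j
    · have := (R3' 0 hlt).mpr hqlt
      exact absurd this (not_lt.mpr hx1le)
    · have := (R2 (j+1) j hlt (by omega)).mpr hqlt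
      exact absurd this (not_lt.mpr (hhmax j (by omega)))
  -- increasing
  have hlast : q (k-2) < q (k-1) := by
    have h1 := hjmax (k-3) (by omega)
    have e1 : k - 3 + 1 = k - 2 := by omega
    have e2 : js + 1 = k - 1 := by omega
    rw [e1, e2] at h1
    rcases lt_or_eq_of_le h1 with h2 | h2
    · exact h2
    · have := hq (show k-2 ∈ Set.Iio k from (by show k-2<k; omega)) (show k-1 ∈ Set.Iio k from (by show k-1<k; omega)) h2
      omega
  have hinc : ∀ d, ∀ i, 1 ≤ i → i + 1 + d = k - 1 → q i < q (i+1) := by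
    intro d
    induction d with
    | zero =>
      intro i h1 h2
      have e1 : i = k - 2 := by omega
      have e2 : i + 1 = k - 1 := by omega
      rw [e2, e1]; exact hlast
    | succ d ih =>
      intro i h1 h2
      obtain ⟨j, rfl⟩ : ∃ j, i = j + 1 := ⟨i - 1, by omega⟩
      have h3 := ih (j+2) (by omega) (by omega)
      have h4 := (R2 j (j+1) (by omega) (by omega)).mpr h3
      exact (R1 j (j+1) (by omega) (by omega)).mp h4
  have hinc' : ∀ i, 1 ≤ i → i + 1 < k → q i < q (i+1) := fun i h1 h2 =>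
    hinc (k - 2 - i) i h1 (by omega)
  have hmono : ∀ j i, 1 ≤ i → i ≤ j → j < k → q i ≤ q j := by
    intro j
    induction j with
    | zero => intro i h1 h2; omega
    | succ j ih =>
      intro i h1 h2 h3
      rcases Nat.eq_or_lt_of_le h2 with h4 | h4
      · rw [h4]
      · exact (ih i h1 (by omega) (by omega)).trans (hinc' j (by omega) h3).le
  have hhm : ∀ j, j + 2 < k → h j ≤ h (k-3) := by
    intro j hj
    by_contra hcon
    rw [not_le] at hcon
    have h1 := (R1 (k-3) j (by omega) (by omega)).mp hcon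
    exact absurd h1 (not_lt.mpr (hmono _ _ (by omega) (by omega) (by omega)))
  have hx10 : x1 < h 0 := (R3 0 (by omega)).mpr (hinc' 1 le_rfl (by omega))
  refine ⟨hx10, hhm 0 (by omega), ?_, ?_⟩
  · intro x2 hx2
    by_contra hcon
    rw [not_le] at hcon
    apply hx2
    have hbig : ∀ a, a + 1 < k → gcons x1 h a < x2 := by
      intro a ha
      rcases a with _ | a
      · exact (hx10.trans_le (hhm 0 (by omega))).trans hcon
      · exact (hhm a (by omega)).trans_lt hcon
    intro a ha b hb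
    rcases a with _ | a
    · rcases b with _ | b
      · simp
      · show x2 < gcons x1 h b ↔ q 0 < q (b+1)
        have h1 := hbig b hb
        have h2 := hmax (b+1) (by omega) hb
        exact ⟨fun h' => absurd h' (lt_asymm h1), fun h' => absurd h' (lt_asymm h2)⟩
    · rcases b with _ | b
      · show gcons x1 h a < x2 ↔ q (a+1) < q 0
        exact ⟨fun _ => hmax (a+1) (by omega) ha, fun _ => hbig a ha⟩
      · exact hx' (a+1) ha (b+1) hb
  · intro y1 hy1
    refine ⟨?_, ?_⟩
    · intro hocc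
      have := (hocc 1 (by omega) 0 (by omega)).mpr (hmax 1 le_rfl (by omega))
      exact absurd this (lt_asymm hy1)
    · intro y2 hy12 hy2
      refine ⟨?_, ?_⟩
      · intro hocc
        have h1 := (hocc (k-1) (by omega) 0 (by omega)).mpr (hmax (k-1) (by omega) (by omega))
        obtain ⟨m, hm⟩ : ∃ m, k = m + 3 := ⟨k - 3, by omega⟩
        subst hm
        have h2 : h m < y2 := h1
        rw [show m + 3 - 3 = m by omega] at hy2
        exact absurd h2 (not_lt.mpr hy2)
      · intro y3 hocc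
        have h1 := (hocc 1 (by omega) 2 (by omega)).mpr (hinc' 1 le_rfl (by omega))
        have h2 : y2 < y1 := h1
        exact absurd h2 (lt_asymm hy12)

end gen

lemma cons_eq (x : I) (h : ℕ → I) : cons x h = gcons x h := by
  funext i; cases i <;> rfl

lemma occ_eq (k : ℕ) (q : ℕ → ℕ) (h : ℕ → I) : occ k q h ↔ gocc k q h := Iff.rfl

lemma gcons_dual (x : I) (h : ℕ → I) :
    gcons (OrderDual.toDual x) (OrderDual.toDual ∘ h) = OrderDual.toDual ∘ gcons x h := by
  funext i; cases i <;> rfl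

lemma gocc_dual (k : ℕ) (q : ℕ → ℕ) (h : ℕ → I) :
    gocc k (OrderDual.toDual ∘ q) (OrderDual.toDual ∘ h) ↔ gocc k q h := by
  constructor
  · intro H a ha b hb; exact H b hb a ha
  · intro H a ha b hb; exact H b hb a ha

/-! ## measure part -/

section meas

variable (k : ℕ) (q : ℕ → ℕ)

/-- allowed set -/
def Al (h : ℕ → I) : Set I := {x | ¬ occ k q (cons x h)}

lemma meas_occ (h : ℕ → I) : MeasurableSet {x : I | occ k q (cons x h)} := by
  have : {x : I | occ k q (cons x h)} = ⋂ a ∈ Finset.range k, ⋂ b ∈ Finset.range k,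
      {x : I | cons x h a < cons x h b ↔ q a < q b} := by
    ext x
    simp only [mem_ofPred_eq, mem_iInter, Finset.mem_range, occ]
  rw [this]
  apply Finset.measurableSet_biInter; intro a _
  apply Finset.measurableSet_biInter; intro b _
  have hm : ∀ a, Measurable (fun x : I => cons x h a) := by
    intro a
    cases a with
    | zero => exact measurable_id
    | succ a => exact measurable_const
  have hlt : MeasurableSet {x : I | cons x h a < cons x h b} := measurableSet_lt (hm a) (hm b)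
  by_cases hq : q a < q b
  · have e : {x : I | cons x h a < cons x h b ↔ q a < q b} = {x : I | cons x h a < cons x h b} := by
      ext x; exact ⟨fun H => H.mpr hq, fun H => ⟨fun _ => hq, fun _ => H⟩⟩
    rw [e]; exact hlt
  · have e : {x : I | cons x h a < cons x h b ↔ q a < q b} = {x : I | cons x h a < cons x h b}ᶜ := by
      ext x; exact ⟨fun H h' => hq (H.mp h'), fun H => ⟨fun h' => absurd h' H, fun h' => absurd h' hq⟩⟩
    rw [e]; exact hlt.compl

lemma meas_Al (h : ℕ → I) : MeasurableSet (Al k q h) := (meas_occ k q h).compl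

lemma meas_Mid : MeasurableSet Mid := by
  have : Mid = Ico (⟨1/20, by norm_num, by norm_num⟩ : I) ⟨19/20, by norm_num, by norm_num⟩ := by
    ext x; rfl
  rw [this]; exact measurableSet_Ico

lemma vol_Mid : volume Mid = ENNReal.ofReal (9/10) := by
  have : Mid = Ico (⟨1/20, by norm_num, by norm_num⟩ : I) ⟨19/20, by norm_num, by norm_num⟩ := by
    ext x; rfl
  rw [this, unitInterval.volume_Ico]; congr 1; norm_num

lemma lower {S : Set I} (hS : MeasurableSet S) {F : I → ℝ≥0∞} {c : ℝ≥0∞} (h : ∀ x ∈ S, c ≤ F x) :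
    c * volume S ≤ ∫⁻ x, F x := by
  calc c * volume S = ∫⁻ _ in S, c := by rw [setLIntegral_const]
    _ ≤ ∫⁻ x in S, F x := setLIntegral_mono' hS h
    _ ≤ ∫⁻ x, F x := setLIntegral_le_lintegral _ _

open Classical in
noncomputable def F3 (h : ℕ → I) : ℝ≥0∞ :=
  ∫⁻ x3 : I, (if occ k q (cons x3 h) ∨ x3 ∉ Mid then 0 else (1 : ℝ≥0∞))

open Classical in
noncomputable def JJ (h : ℕ → I) : ℝ≥0∞ :=
  ∫⁻ x2 : I, (if occ k q (cons x2 h) then 0 else F3 k q (cons x2 h))

open Classical in
noncomputable def I2 (h : ℕ → I) : ℝ≥0∞ :=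
  ∫⁻ x2 : I, (if occ k q (cons x2 h) then 0 else (1 : ℝ≥0∞))

lemma F3_ge (h : ℕ → I) : volume (Al k q h ∩ Mid) ≤ F3 k q h := by
  have := lower (S := Al k q h ∩ Mid) ((meas_Al k q h).inter meas_Mid)
    (F := fun x3 => by classical exact (if occ k q (cons x3 h) ∨ x3 ∉ Mid then 0 else (1 : ℝ≥0∞))) (c := 1) (by
      intro x hx
      have h1 : ¬ (occ k q (cons x h) ∨ x ∉ Mid) := by
        rintro (h | h)
        · exact hx.1 h
        · exact h hx.2
      rw [if_neg h1])
  rw [one_mul] at this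
  unfold F3
  convert this

lemma I2_eq (h : ℕ → I) : I2 k q h = volume (Al k q h) := by
  classical
  have : (fun x2 : I => (if occ k q (cons x2 h) then 0 else (1 : ℝ≥0∞))) =
      (Al k q h).indicator 1 := by
    funext x
    by_cases hx : occ k q (cons x h)
    · rw [if_pos hx, indicator_of_notMem (by simpa [Al] using hx)]
    · rw [if_neg hx, indicator_of_mem (by simpa [Al] using hx)]; rfl
  unfold I2
  rw [this, lintegral_indicator_one (meas_Al k q h)]

lemma I2_le (h : ℕ → I) : I2 k q h ≤ 1 := by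
  rw [I2_eq]; exact prob_le_one

/-- each entry bounds the occurrence set on one side -/
lemma side {k : ℕ} {q : ℕ → ℕ} (hq : Set.InjOn q (Set.Iio k)) (h : ℕ → I) (j : ℕ) (hj : j + 1 < k) :
    (q 0 < q (j+1) → Ici (h j) ⊆ Al k q h) ∧ (q (j+1) < q 0 → Iic (h j) ⊆ Al k q h) ∧
      (q 0 < q (j+1) ∨ q (j+1) < q 0) := by
  refine ⟨?_, ?_, ?_⟩
  · intro hlt x hx hocc
    have := (hocc 0 (by omega) (j+1) hj).mpr hlt
    have h2 : x < h j := this
    exact absurd h2 (not_lt.mpr hx)
  · intro hlt x hx hocc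
    have := (hocc (j+1) hj 0 (by omega)).mpr hlt
    have h2 : h j < x := this
    exact absurd h2 (not_lt.mpr hx)
  · rcases lt_trichotomy (q 0) (q (j+1)) with h1 | h1 | h1
    · exact Or.inl h1
    · have := hq (show 0 ∈ Set.Iio k from (by show 0 < k; omega)) (show j+1 ∈ Set.Iio k from hj) h1
      omega
    · exact Or.inr h1

lemma C1 {k : ℕ} {q : ℕ → ℕ} (hq : Set.InjOn q (Set.Iio k)) (h : ℕ → I) (j : ℕ) (hj : j + 1 < k)
    (h1 : (3/20:ℝ) ≤ h j) (h2 : (h j : ℝ) ≤ 17/20) :
    ENNReal.ofReal (3/20) ≤ volume (Al k q h) := by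
  obtain ⟨s1, s2, s3⟩ := side hq h j hj
  rcases s3 with s | s
  · calc ENNReal.ofReal (3/20) ≤ ENNReal.ofReal (1 - h j) := ENNReal.ofReal_le_ofReal (by linarith)
      _ = volume (Ici (h j)) := (unitInterval.volume_Ici _).symm
      _ ≤ _ := measure_mono (s1 s)
  · calc ENNReal.ofReal (3/20) ≤ ENNReal.ofReal (h j) := ENNReal.ofReal_le_ofReal (by linarith)
      _ = volume (Iic (h j)) := (unitInterval.volume_Iic _).symm
      _ ≤ _ := measure_mono (s2 s)

lemma C1F {k : ℕ} {q : ℕ → ℕ} (hq : Set.InjOn q (Set.Iio k)) (h : ℕ → I) (j : ℕ) (hj : j + 1 < k)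
    (h1 : (3/20:ℝ) ≤ h j) (h2 : (h j : ℝ) ≤ 17/20) :
    ENNReal.ofReal (1/20) ≤ F3 k q h := by
  have hC := C1 hq h j hj h1 h2
  have h3 : volume (Al k q h) ≤ volume (Al k q h ∩ Mid) + volume (Midᶜ) := by
    rw [← measure_inter_add_sdiff (Al k q h) meas_Mid]
    gcongr
    intro x hx; exact hx.2
  have h4 : volume (Midᶜ : Set I) = ENNReal.ofReal (1/10) := by
    rw [prob_compl_eq_one_sub meas_Mid, vol_Mid, ← ENNReal.ofReal_one,
      ← ENNReal.ofReal_sub _ (by norm_num)]
    congr 1; norm_num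
  rw [h4] at h3
  have h5 : ENNReal.ofReal (1/20) + ENNReal.ofReal (1/10) ≤
      volume (Al k q h ∩ Mid) + ENNReal.ofReal (1/10) := by
    rw [← ENNReal.ofReal_add (by norm_num) (by norm_num)]
    refine le_trans (le_of_eq ?_) (hC.trans h3)
    congr 1; norm_num
  have h6 := ENNReal.le_of_add_le_add_right ENNReal.ofReal_ne_top h5
  exact h6.trans (F3_ge k q h)

def Cen : Set I := {x : I | (3/20:ℝ) ≤ x ∧ (x:ℝ) ≤ 17/20}

lemma Cen_eq : Cen = Icc (⟨3/20, by norm_num, by norm_num⟩ : I) ⟨17/20, by norm_num, by norm_num⟩ := by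
  ext x; rfl

lemma meas_Cen : MeasurableSet Cen := by rw [Cen_eq]; exact measurableSet_Icc

/-- if the allowed set is large it has a large part in the centre -/
lemma cen_large {S : Set I} (hS : ENNReal.ofReal (7/20) ≤ volume S) :
    ENNReal.ofReal (1/20) ≤ volume (S ∩ Cen) := by
  have h3 : volume S ≤ volume (S ∩ Cen) + volume (Cenᶜ) := by
    rw [← measure_inter_add_sdiff S meas_Cen]
    gcongr
    intro x hx; exact hx.2
  have h4 : volume (Cenᶜ : Set I) = ENNReal.ofReal (6/20) := by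
    rw [prob_compl_eq_one_sub meas_Cen, Cen_eq, unitInterval.volume_Icc, ← ENNReal.ofReal_one,
      ← ENNReal.ofReal_sub _ (by norm_num)]
    congr 1; norm_num
  rw [h4] at h3
  have h5 : ENNReal.ofReal (1/20) + ENNReal.ofReal (6/20) ≤
      volume (S ∩ Cen) + ENNReal.ofReal (6/20) := by
    rw [← ENNReal.ofReal_add (by norm_num) (by norm_num)]
    refine le_trans (le_of_eq ?_) (hS.trans h3)
    congr 1; norm_num
  exact ENNReal.le_of_add_le_add_right ENNReal.ofReal_ne_top h5

open Classical in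
noncomputable def LL (h : ℕ → I) : ℝ≥0∞ :=
  ∫⁻ x1 : I, (if occ k q (cons x1 h) then 0 else I2 k q (cons x1 h))

open Classical in
noncomputable def RR (h : ℕ → I) : ℝ≥0∞ :=
  ∫⁻ x1 : I, (if occ k q (cons x1 h) then 0 else JJ k q (cons x1 h))

lemma JJ_lower {k : ℕ} {q : ℕ → ℕ} {h : ℕ → I} {S : Set I} (hS : MeasurableSet S) {c : ℝ≥0∞}
    (hc : ∀ x ∈ S, ¬ occ k q (cons x h) ∧ c ≤ F3 k q (cons x h)) : c * volume S ≤ JJ k q h := by
  unfold JJ
  apply lower hS
  intro x hx
  rw [if_neg (hc x hx).1]; exact (hc x hx).2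

lemma RR_lower {k : ℕ} {q : ℕ → ℕ} {h : ℕ → I} {S : Set I} (hS : MeasurableSet S) {c : ℝ≥0∞}
    (hc : ∀ x ∈ S, ¬ occ k q (cons x h) ∧ c ≤ JJ k q (cons x h)) : c * volume S ≤ RR k q h := by
  unfold RR
  apply lower hS
  intro x hx
  rw [if_neg (hc x hx).1]; exact (hc x hx).2

lemma LL_le (h : ℕ → I) : LL k q h ≤ 1 := by
  classical
  unfold LL
  calc _ ≤ ∫⁻ _ : I, (1:ℝ≥0∞) := by
        apply lintegral_mono
        intro x
        simp only []
        split_ifs
        · exact bot_le
        · exact I2_le k q _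
    _ = 1 := by simp

lemma caseA {k : ℕ} {q : ℕ → ℕ} (hk : 3 ≤ k) (hq : Set.InjOn q (Set.Iio k)) (h : ℕ → I)
    (hA : ENNReal.ofReal (7/20) ≤ volume (Al k q h)) : LL k q h ≤ 4000 * RR k q h := by
  have hS := cen_large hA
  have h1 : ENNReal.ofReal (3/400) * volume (Al k q h ∩ Cen) ≤ RR k q h := by
    apply RR_lower ((meas_Al k q h).inter meas_Cen)
    rintro x1 ⟨hx1, hc1, hc2⟩
    refine ⟨hx1, ?_⟩
    have h2 : ENNReal.ofReal (1/20) * volume (Al k q (cons x1 h)) ≤ JJ k q (cons x1 h) := by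
      apply JJ_lower (meas_Al k q _)
      intro x2 hx2
      exact ⟨hx2, C1F hq _ 1 (by omega) hc1 hc2⟩
    refine le_trans ?_ h2
    have h3 := C1 hq (cons x1 h) 0 (by omega) hc1 hc2
    calc ENNReal.ofReal (3/400) = ENNReal.ofReal (1/20) * ENNReal.ofReal (3/20) := by
          rw [← ENNReal.ofReal_mul (by norm_num)]; congr 1; norm_num
      _ ≤ _ := by gcongr
  calc LL k q h ≤ 1 := LL_le k q h
    _ = ENNReal.ofReal 1 := ENNReal.ofReal_one.symm
    _ ≤ ENNReal.ofReal (4000 * (3/400 * (1/20))) := ENNReal.ofReal_le_ofReal (by norm_num)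
    _ = 4000 * (ENNReal.ofReal (3/400) * ENNReal.ofReal (1/20)) := by
        rw [ENNReal.ofReal_mul (by norm_num), ENNReal.ofReal_mul (by norm_num)]
        norm_num
    _ ≤ 4000 * (ENNReal.ofReal (3/400) * volume (Al k q h ∩ Cen)) := by gcongr
    _ ≤ _ := by gcongr

/-- the easy part of case B -/
lemma easyB {k : ℕ} {q : ℕ → ℕ} (hk : 3 ≤ k) (hq : Set.InjOn q (Set.Iio k)) (h' : ℕ → I)
    (hA : ENNReal.ofReal (7/20) ≤ volume (Al k q h')) : I2 k q h' ≤ 400 * JJ k q h' := by
  have hS := cen_large hA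
  have h1 : ENNReal.ofReal (1/20) * volume (Al k q h' ∩ Cen) ≤ JJ k q h' := by
    apply JJ_lower ((meas_Al k q h').inter meas_Cen)
    rintro x2 ⟨hx2, hc1, hc2⟩
    exact ⟨hx2, C1F hq _ 0 (by omega) hc1 hc2⟩
  calc I2 k q h' ≤ 1 := I2_le k q h'
    _ = ENNReal.ofReal 1 := ENNReal.ofReal_one.symm
    _ ≤ ENNReal.ofReal (400 * (1/20 * (1/20))) := ENNReal.ofReal_le_ofReal (by norm_num)
    _ = 400 * (ENNReal.ofReal (1/20) * ENNReal.ofReal (1/20)) := by
        rw [ENNReal.ofReal_mul (by norm_num), ENNReal.ofReal_mul (by norm_num)]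
        norm_num
    _ ≤ 400 * (ENNReal.ofReal (1/20) * volume (Al k q h' ∩ Cen)) := by gcongr
    _ ≤ _ := by gcongr

lemma F3_all {k : ℕ} {q : ℕ → ℕ} {h : ℕ → I} (hall : ∀ x, ¬ occ k q (cons x h)) :
    ENNReal.ofReal (9/10) ≤ F3 k q h := by
  rw [← vol_Mid]
  refine le_trans ?_ (F3_ge k q h)
  apply measure_mono
  intro x hx
  exact ⟨hall x, hx⟩

lemma caseB {k : ℕ} {q : ℕ → ℕ} (hk : 3 ≤ k) (hq : Set.InjOn q (Set.Iio k)) (h : ℕ → I)
    (m : I → I) (hm : MeasurePreserving m volume volume) (H T : I) (hHT : H ≤ T)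
    (G1 : ∀ x1, ¬ occ k q (cons x1 h) → volume (Al k q (cons x1 h)) < ENNReal.ofReal (7/20) →
      m x1 < H ∧ Al k q (cons x1 h) ⊆ m ⁻¹' (Iic T))
    (G2 : ∀ x1, m x1 < H → ¬ occ k q (cons x1 h) ∧ ∀ x2, m x1 < m x2 → m x2 ≤ T →
      ¬ occ k q (cons x2 (cons x1 h)) ∧ ∀ x3, ¬ occ k q (cons x3 (cons x2 (cons x1 h)))) :
    LL k q h ≤ 4000 * RR k q h := by
  classical
  have hH0 : (0:ℝ) ≤ H := H.2.1
  have hT0 : (0:ℝ) ≤ T := T.2.1
  have hHT' : (H:ℝ) ≤ T := hHT
  have hmm := hm.measurable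
  -- upper bound
  have hup : LL k q h ≤ 400 * RR k q h + ENNReal.ofReal (T * H) := by
    have hpt : ∀ x1 : I, (if occ k q (cons x1 h) then 0 else I2 k q (cons x1 h)) ≤
        400 * (if occ k q (cons x1 h) then 0 else JJ k q (cons x1 h)) +
          (m ⁻¹' (Iio H)).indicator (fun _ => ENNReal.ofReal T) x1 := by
      intro x1
      by_cases hx : occ k q (cons x1 h)
      · rw [if_pos hx]; exact bot_le
      · rw [if_neg hx, if_neg hx]
        rcases le_or_gt (ENNReal.ofReal (7/20)) (volume (Al k q (cons x1 h))) with h7 | h7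
        · exact (easyB hk hq _ h7).trans le_self_add
        · obtain ⟨g1, g2⟩ := G1 x1 hx h7
          rw [indicator_of_mem (show x1 ∈ m ⁻¹' (Iio H) from g1)]
          refine le_trans ?_ le_add_self
          rw [I2_eq]
          refine (measure_mono g2).trans (le_of_eq ?_)
          rw [hm.measure_preimage measurableSet_Iic.nullMeasurableSet, unitInterval.volume_Iic]
    calc LL k q h ≤ ∫⁻ x1 : I, (400 * (if occ k q (cons x1 h) then 0 else JJ k q (cons x1 h)) +
          (m ⁻¹' (Iio H)).indicator (fun _ => ENNReal.ofReal T) x1) := lintegral_mono hpt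
      _ = (∫⁻ x1 : I, 400 * (if occ k q (cons x1 h) then 0 else JJ k q (cons x1 h))) +
          ∫⁻ x1 : I, (m ⁻¹' (Iio H)).indicator (fun _ => ENNReal.ofReal T) x1 := by
          apply lintegral_add_right
          exact measurable_const.indicator (hmm measurableSet_Iio)
      _ = 400 * RR k q h + ENNReal.ofReal (T * H) := by
          rw [lintegral_const_mul' _ _ (by norm_num), lintegral_indicator_const (hmm measurableSet_Iio),
            hm.measure_preimage measurableSet_Iio.nullMeasurableSet, unitInterval.volume_Iio,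
            ← ENNReal.ofReal_mul hT0]
          rfl
  -- lower bound
  have hlow : ENNReal.ofReal (9/40 * (T * H)) ≤ RR k q h := by
    set H2 : I := ⟨(H:ℝ)/2, by positivity, by have := H.2.2; linarith⟩ with hH2
    have hH2v : (H2:ℝ) = H/2 := rfl
    have h1 : ENNReal.ofReal (9/10 * (T/2)) * volume (m ⁻¹' (Iio H2)) ≤ RR k q h := by
      apply RR_lower (hmm measurableSet_Iio)
      intro x1 hx1
      have hx1' : m x1 < H2 := hx1
      have hx1r : (m x1 : ℝ) < H/2 := by rw [← hH2v]; exact hx1'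
      have hx1H : m x1 < H := by
        show (m x1 : ℝ) < H
        linarith
      obtain ⟨g1, g2⟩ := G2 x1 hx1H
      refine ⟨g1, ?_⟩
      have h2 : ENNReal.ofReal (9/10) * volume (m ⁻¹' (Ioc (m x1) T)) ≤ JJ k q (cons x1 h) := by
        apply JJ_lower (hmm measurableSet_Ioc)
        rintro x2 ⟨hx2, hx2'⟩
        obtain ⟨g3, g4⟩ := g2 x2 hx2 hx2'
        exact ⟨g3, F3_all g4⟩
      refine le_trans ?_ h2
      rw [hm.measure_preimage measurableSet_Ioc.nullMeasurableSet, unitInterval.volume_Ioc,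
        ← ENNReal.ofReal_mul (by norm_num)]
      apply ENNReal.ofReal_le_ofReal
      nlinarith
    refine le_trans (le_of_eq ?_) h1
    rw [hm.measure_preimage measurableSet_Iio.nullMeasurableSet, unitInterval.volume_Iio,
      ← ENNReal.ofReal_mul (by positivity), hH2v]
    congr 1; ring
  calc LL k q h ≤ 400 * RR k q h + ENNReal.ofReal (T * H) := hup
    _ ≤ 400 * RR k q h + ENNReal.ofReal (5 * (9/40 * (T * H))) := by
        have h0 : 0 ≤ (T:ℝ) * H := by positivity
        exact add_le_add le_rfl (ENNReal.ofReal_le_ofReal (by linarith))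
    _ = 400 * RR k q h + 5 * ENNReal.ofReal (9/40 * (T * H)) := by
        rw [ENNReal.ofReal_mul (by norm_num)]; norm_num
    _ ≤ 400 * RR k q h + 5 * RR k q h := by gcongr
    _ = 405 * RR k q h := by rw [← add_mul]; norm_num
    _ ≤ 4000 * RR k q h := by gcongr; norm_num

theorem mainA {k : ℕ} {q : ℕ → ℕ} (hk : 3 ≤ k) (hq : Set.InjOn q (Set.Iio k)) (h : ℕ → I) :
    LL k q h ≤ 4000 * RR k q h := by
  classical
  rcases le_or_gt (ENNReal.ofReal (7/20)) (volume (Al k q h)) with hA | hA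
  · exact caseA hk hq h hA
  by_cases hE : ∃ x1, ¬ occ k q (cons x1 h) ∧ volume (Al k q (cons x1 h)) < ENNReal.ofReal (7/20)
  · obtain ⟨x1, hx1, hx1'⟩ := hE
    -- existence of occurrences
    have hexocc : ∀ h' : ℕ → I, volume (Al k q h') < ENNReal.ofReal (7/20) →
        ∃ x, occ k q (cons x h') := by
      intro h' hh
      by_contra hcon
      push Not at hcon
      have : Al k q h' = univ := by ext x; simp [Al, hcon x]
      rw [this, measure_univ, ← ENNReal.ofReal_one] at hh
      have := (ENNReal.ofReal_lt_ofReal_iff (by norm_num)).mp hh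
      norm_num at this
    have hsg : ∀ h' : ℕ → I, volume (Al k q h') < ENNReal.ofReal (7/20) → ∀ j, j + 1 < k →
        (q 0 < q (j+1) → (1/2:ℝ) < h' j) ∧ (q (j+1) < q 0 → (h' j : ℝ) < 1/2) := by
      intro h' hh j hj
      obtain ⟨s1, s2, _⟩ := side hq h' j hj
      constructor
      · intro s
        have h1 := (measure_mono (s1 s)).trans_lt hh
        rw [unitInterval.volume_Ici] at h1
        have := (ENNReal.ofReal_lt_ofReal_iff (by norm_num)).mp h1
        linarith
      · intro s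
        have h1 := (measure_mono (s2 s)).trans_lt hh
        rw [unitInterval.volume_Iic] at h1
        have := (ENNReal.ofReal_lt_ofReal_iff (by norm_num)).mp h1
        linarith
    have hstep : ∀ j, j + 2 < k → (q 0 < q (j+1) ↔ q 0 < q (j+2)) := by
      intro j hj
      have a1 := hsg h hA j (by omega)
      have a2 := hsg (cons x1 h) hx1' (j+1) hj
      have a3 : (cons x1 h (j+1) : ℝ) = h j := rfl
      rw [a3] at a2
      have b1 := (side hq h j (by omega)).2.2
      have b2 := (side hq h (j+1) hj).2.2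
      constructor
      · intro hlt
        rcases b2 with b | b
        · exact b
        · have := a1.1 hlt
          have := a2.2 b
          linarith
      · intro hlt
        rcases b1 with b | b
        · exact b
        · have := a2.1 hlt
          have := a1.2 b
          linarith
    have hall : ∀ j, j + 1 < k → (q 0 < q 1 ↔ q 0 < q (j+1)) := by
      intro j
      induction j with
      | zero => intro _; exact Iff.rfl
      | succ j ih => intro hj; exact (ih (by omega)).trans (hstep j hj)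
    rcases (side hq h 0 (by omega)).2.2 with hs | hs
    · -- q 0 is the minimum
      have hmin : ∀ j, 1 ≤ j → j < k → (OrderDual.toDual ∘ q) j < (OrderDual.toDual ∘ q) 0 := by
        intro j h1 h2
        obtain ⟨i, rfl⟩ : ∃ i, j = i + 1 := ⟨j - 1, by omega⟩
        show q 0 < q (i+1)
        exact (hall i h2).mp hs
      have hqd : Set.InjOn (OrderDual.toDual ∘ q) (Set.Iio k) := fun a ha b hb hab => hq ha hb hab
      have tr : ∀ h' : ℕ → I, occ k q h' ↔ gocc k (OrderDual.toDual ∘ q) (OrderDual.toDual ∘ h') :=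
        fun h' => (gocc_dual k q h').symm
      have trc : ∀ (x : I) (h' : ℕ → I), (OrderDual.toDual ∘ (cons x h') : ℕ → Iᵒᵈ) =
          gcons (OrderDual.toDual x) (OrderDual.toDual ∘ h') := by
        intro x h'; rw [gcons_dual, cons_eq]
      have key : ∀ y1, ¬ occ k q (cons y1 h) → volume (Al k q (cons y1 h)) < ENNReal.ofReal (7/20) →
          h 0 < y1 ∧ h (k-3) ≤ h 0 ∧ (∀ x2, ¬ occ k q (cons x2 (cons y1 h)) → h (k-3) ≤ x2) ∧
          ∀ z1, h 0 < z1 → ¬ occ k q (cons z1 h) ∧ ∀ z2, z2 < z1 → h (k-3) ≤ z2 →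
            ¬ occ k q (cons z2 (cons z1 h)) ∧ ∀ z3, ¬ occ k q (cons z3 (cons z2 (cons z1 h))) := by
        intro y1 hy1 hy1'
        obtain ⟨x, hx⟩ := hexocc h hA
        obtain ⟨x', hx'⟩ := hexocc _ hy1'
        rw [tr, trc] at hx hy1
        rw [tr, trc, trc] at hx'
        obtain ⟨c1, c2, c3, c4⟩ := comb hk hqd hmin hx hx' hy1
        refine ⟨c1, c2, ?_, ?_⟩
        · intro x2 hx2
          rw [tr, trc, trc] at hx2
          exact c3 _ hx2
        · intro z1 hz1
          obtain ⟨d1, d2⟩ := c4 (OrderDual.toDual z1) hz1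
          refine ⟨by rw [tr, trc]; exact d1, ?_⟩
          intro z2 hz2 hz2'
          obtain ⟨e1, e2⟩ := d2 (OrderDual.toDual z2) hz2 hz2'
          refine ⟨by rw [tr, trc, trc]; exact e1, ?_⟩
          intro z3
          rw [tr, trc, trc, trc]; exact e2 _
      obtain ⟨_, k2, _, k4⟩ := key x1 hx1 hx1'
      apply caseB hk hq h unitInterval.symm unitInterval.measurePreserving_symm
        (unitInterval.symm (h 0)) (unitInterval.symm (h (k-3))) (unitInterval.symm_le_symm.mpr k2)
      · intro y1 hy1 hy1'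
        obtain ⟨j1, _, j3, _⟩ := key y1 hy1 hy1'
        refine ⟨unitInterval.symm_lt_symm.mpr j1, ?_⟩
        intro x2 hx2
        exact unitInterval.symm_le_symm.mpr (j3 x2 hx2)
      · intro y1 hy1
        obtain ⟨d1, d2⟩ := k4 y1 (unitInterval.symm_lt_symm.mp hy1)
        refine ⟨d1, ?_⟩
        intro x2 hx2 hx2'
        exact d2 x2 (unitInterval.symm_lt_symm.mp hx2) (unitInterval.symm_le_symm.mp hx2')
    · -- q 0 is the maximum
      have hmax : ∀ j, 1 ≤ j → j < k → q j < q 0 := by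
        intro j h1 h2
        obtain ⟨i, rfl⟩ : ∃ i, j = i + 1 := ⟨j - 1, by omega⟩
        rcases (side hq h i h2).2.2 with b | b
        · have h3 := (hall i h2).mpr b
          exact absurd h3 (lt_asymm hs)
        · exact b
      have key : ∀ y1, ¬ occ k q (cons y1 h) → volume (Al k q (cons y1 h)) < ENNReal.ofReal (7/20) →
          y1 < h 0 ∧ h 0 ≤ h (k-3) ∧ (∀ x2, ¬ occ k q (cons x2 (cons y1 h)) → x2 ≤ h (k-3)) ∧
          ∀ z1, z1 < h 0 → ¬ occ k q (cons z1 h) ∧ ∀ z2, z1 < z2 → z2 ≤ h (k-3) →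
            ¬ occ k q (cons z2 (cons z1 h)) ∧ ∀ z3, ¬ occ k q (cons z3 (cons z2 (cons z1 h))) := by
        intro y1 hy1 hy1'
        obtain ⟨x, hx⟩ := hexocc h hA
        obtain ⟨x', hx'⟩ := hexocc _ hy1'
        rw [occ_eq, cons_eq] at hx hy1
        rw [occ_eq, cons_eq, cons_eq] at hx'
        obtain ⟨c1, c2, c3, c4⟩ := comb hk hq hmax hx hx' hy1
        refine ⟨c1, c2, ?_, ?_⟩
        · intro x2 hx2
          rw [occ_eq, cons_eq, cons_eq] at hx2
          exact c3 _ hx2
        · intro z1 hz1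
          obtain ⟨d1, d2⟩ := c4 z1 hz1
          refine ⟨by rw [occ_eq, cons_eq]; exact d1, ?_⟩
          intro z2 hz2 hz2'
          obtain ⟨e1, e2⟩ := d2 z2 hz2 hz2'
          refine ⟨by rw [occ_eq, cons_eq, cons_eq]; exact e1, ?_⟩
          intro z3
          rw [occ_eq, cons_eq, cons_eq, cons_eq]; exact e2 _
      obtain ⟨_, k2, _, k4⟩ := key x1 hx1 hx1'
      apply caseB hk hq h id (MeasurePreserving.id _) (h 0) (h (k-3)) k2
      · intro y1 hy1 hy1'
        obtain ⟨j1, _, j3, _⟩ := key y1 hy1 hy1'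
        exact ⟨j1, fun x2 hx2 => j3 x2 hx2⟩
      · intro y1 hy1
        obtain ⟨d1, d2⟩ := k4 y1 hy1
        exact ⟨d1, fun x2 hx2 hx2' => d2 x2 hx2 hx2'⟩
  · push Not at hE
    have : LL k q h ≤ 400 * RR k q h := by
      unfold LL RR
      rw [← lintegral_const_mul' _ _ (by norm_num)]
      apply lintegral_mono
      intro x1
      simp only []
      split_ifs with hx
      · simp
      · exact easyB hk hq _ (hE x1 hx)
    refine this.trans ?_
    gcongr; norm_num

end meas

theorem stmtA : StmtA := by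
  intro k hk q hq h
  exact mainA hk hq h

end R556.CP
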