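import Pool.Agent.R556.CP.Defs

open MeasureTheory Set
open scoped ENNReal unitInterval

namespace R556.CP

lemma filler_core (k : ℕ) (hk : 3 ≤ k) (p : ℕ → ℕ) (hp : Set.InjOn p (Set.Iio k)) (X : ℕ → I)
    (b : ℕ)
    (F1 : ∀ j, 1 ≤ j → j ≤ k - 1 →
      (p (k-1) < p (k-2) → X (b + (j-1)) < X (b + j)) ∧ (¬ p (k-1) < p (k-2) → X (b + j) < X (b + (j-1))))
    (F2 : ∀ j, k ≤ j → j ≤ 2*k-2 →
      (p 1 < p 0 → X (b + j) < X (b + (j+1))) ∧ (¬ p 1 < p 0 → X (b + (j+1)) < X (b + j)))
    (F3 : (p (k-1) < p (k-2) ↔ ¬ p 1 < p 0) → ∀ j j', 1 ≤ j → j ≤ k - 1 → k ≤ j' → j' ≤ 2*k-2 →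
      (p (k-1) < p 0 → X (b + j) < X (b + j')) ∧ (¬ p (k-1) < p 0 → X (b + j') < X (b + j)))
    (i : ℕ) (hi1 : b + 1 ≤ i + k - 1) (hi2 : i ≤ b + 2 * k - 2) : ¬ OccAt k p X i := by
  intro hocc
  have hne1 : p (k-1) ≠ p (k-2) := fun h => by
    have := hp (show k-1 ∈ Set.Iio k from (by show k-1 < k; omega)) (show k-2 ∈ Set.Iio k from (by show k-2 < k; omega)) h
    omega
  have hne2 : p 1 ≠ p 0 := fun h => by
    have := hp (show 1 ∈ Set.Iio k from (by show 1 < k; omega)) (show 0 ∈ Set.Iio k from (by show 0 < k; omega)) h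
    omega
  have hne3 : p (k-1) ≠ p 0 := fun h => by
    have := hp (show k-1 ∈ Set.Iio k from (by show k-1 < k; omega)) (show 0 ∈ Set.Iio k from (by show 0 < k; omega)) h
    omega
  have o1 := hocc (k-2) (by omega) (k-1) (by omega)
  have o1' := hocc (k-1) (by omega) (k-2) (by omega)
  have o2 := hocc 0 (by omega) 1 (by omega)
  have o2' := hocc 1 (by omega) 0 (by omega)
  have o3 := hocc 0 (by omega) (k-1) (by omega)
  have o3' := hocc (k-1) (by omega) 0 (by omega)
  rcases le_or_gt i b with hc | hc
  · -- (a)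
    obtain ⟨j, hj⟩ : ∃ j, i + (k-1) = b + j := ⟨i + (k-1) - b, by omega⟩
    have hj1 : 1 ≤ j := by omega
    have hj2 : j ≤ k - 1 := by omega
    have hj' : i + (k-2) = b + (j-1) := by omega
    rw [hj, hj'] at o1 o1'
    have hF := F1 j hj1 hj2
    by_cases hD : p (k-1) < p (k-2)
    · have := o1.mp (hF.1 hD); omega
    · have := o1'.mp (hF.2 hD); omega
  · rcases le_or_gt k (i - b) with hc2 | hc2
    · -- (c)
      obtain ⟨j, hj⟩ : ∃ j, i = b + j := ⟨i - b, by omega⟩
      have hj1 : k ≤ j := by omega
      have hj2 : j ≤ 2*k-2 := by omega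
      have e0 : i + 0 = b + j := by omega
      have e1 : i + 1 = b + (j+1) := by omega
      rw [e0, e1] at o2 o2'
      have hF := F2 j hj1 hj2
      by_cases hD : p 1 < p 0
      · have := o2.mp (hF.1 hD); omega
      · have := o2'.mp (hF.2 hD); omega
    · -- (b)
      obtain ⟨j, hj⟩ : ∃ j, i = b + j := ⟨i - b, by omega⟩
      have hj1 : 1 ≤ j := by omega
      have hj2 : j ≤ k-1 := by omega
      have e0 : i + 0 = b + j := by omega
      have e1 : i + 1 = b + (j+1) := by omega
      have e2 : i + (k-1) = b + (j + (k-1)) := by omega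
      have e3 : i + (k-2) = b + (j + (k-2)) := by omega
      by_cases hD1 : p (k-1) < p (k-2) <;> by_cases hD2 : p 1 < p 0
      · rcases Nat.lt_or_ge j (k-1) with h | h
        · have hF := (F1 (j+1) (by omega) (by omega)).1 hD1
          rw [show j + 1 - 1 = j by omega, ← e1] at hF
          rw [e0] at o2
          have := o2.mp hF; omega
        · have hF := (F2 (j + (k-2)) (by omega) (by omega)).1 hD2
          rw [show j + (k-2) + 1 = j + (k-1) by omega, ← e2, ← e3] at hF
          have := o1.mp hF; omega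
      · have hF := F3 (by tauto) j (j + (k-1)) hj1 hj2 (by omega) (by omega)
        rw [← e2, ← e0] at hF
        by_cases hL : p (k-1) < p 0
        · have := o3.mp (hF.1 hL); omega
        · have := o3'.mp (hF.2 hL); omega
      · have hF := F3 (by tauto) j (j + (k-1)) hj1 hj2 (by omega) (by omega)
        rw [← e2, ← e0] at hF
        by_cases hL : p (k-1) < p 0
        · have := o3.mp (hF.1 hL); omega
        · have := o3'.mp (hF.2 hL); omega
      · rcases Nat.lt_or_ge j (k-1) with h | h
        · have hF := (F1 (j+1) (by omega) (by omega)).2 hD1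
          rw [show j + 1 - 1 = j by omega, ← e1] at hF
          rw [e0] at o2'
          have := o2'.mp hF; omega
        · have hF := (F2 (j + (k-2)) (by omega) (by omega)).2 hD2
          rw [show j + (k-2) + 1 = j + (k-1) by omega, ← e2, ← e3] at hF
          have := o1'.mp hF; omega

theorem stmtB : StmtB := by
  intro k hk p hp
  classical
  let c : ℕ → ℕ := fun j => if 1 ≤ j ∧ j ≤ k-1 then
      (if p (k-1) < p (k-2) then (if p (k-1) < p 0 then 76*k+j else 78*k+j)
        else (if p (k-1) < p 0 then k-j else 2*k+(k-j)))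
    else if k ≤ j ∧ j ≤ 2*k-2 then
      (if p 1 < p 0 then (if p (k-1) < p 0 then 2*k+(j-k) else (j-k))
        else (if p (k-1) < p 0 then 78*k+(2*k-2-j) else 76*k+(2*k-2-j)))
    else 0
  refine ⟨c, ?_, ?_⟩
  · intro j; simp only [c]; split_ifs <;> omega
  · intro X b hb hb2 hcell i hi1 hi2
    have hk0 : (0:ℝ) < 80 * k := by
      have : (0:ℝ) < k := by exact_mod_cast (by omega : 0 < k)
      positivity
    have hlt : ∀ j j', 1 ≤ j → j ≤ 2*k-2 → 1 ≤ j' → j' ≤ 2*k-2 → c j < c j' →
        X (b+j) < X (b+j') := by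
      intro j j' h1 h2 h3 h4 h5
      have m1 := (hcell j h1 h2).2
      have m2 := (hcell j' h3 h4).1
      have h6 : (c j : ℝ) + 1 ≤ c j' := by exact_mod_cast h5
      have h7 : 80 * (k:ℝ) * (X (b+j) : ℝ) < 80 * k * (X (b+j') : ℝ) := by linarith
      exact Subtype.coe_lt_coe.mp (lt_of_mul_lt_mul_left h7 hk0.le)
    have hlow : ∀ j, 1 ≤ j → j ≤ 2*k-2 → c j < 4*k → ∀ m, X m ∈ Mid → X (b+j) < X m := by
      intro j h1 h2 h3 m hm
      have m1 := (hcell j h1 h2).2
      have h6 : (c j : ℝ) + 1 ≤ 4*k := by exact_mod_cast h3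
      have hm1 : (1/20:ℝ) ≤ X m := hm.1
      have h7 : 80 * (k:ℝ) * (X (b+j) : ℝ) < 80 * k * (X m : ℝ) := by
        have : 80 * (k:ℝ) * (1/20) ≤ 80 * k * (X m : ℝ) := by gcongr
        linarith
      exact Subtype.coe_lt_coe.mp (lt_of_mul_lt_mul_left h7 hk0.le)
    have hhigh : ∀ j, 1 ≤ j → j ≤ 2*k-2 → 76*k ≤ c j → ∀ m, X m ∈ Mid → X m < X (b+j) := by
      intro j h1 h2 h3 m hm
      have m1 := (hcell j h1 h2).1
      have h6 : (76:ℝ)*k ≤ (c j : ℝ) := by exact_mod_cast h3
      have hm1 : (X m : ℝ) < 19/20 := hm.2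
      have h7 : 80 * (k:ℝ) * (X m : ℝ) < 80 * k * (X (b+j) : ℝ) := by
        have : 80 * (k:ℝ) * (X m : ℝ) < 80 * k * (19/20) := by gcongr
        linarith
      exact Subtype.coe_lt_coe.mp (lt_of_mul_lt_mul_left h7 hk0.le)
    apply filler_core k hk p hp X b _ _ _ i hi1 hi2
    · -- F1
      intro j hj1 hj2
      rcases Nat.eq_or_lt_of_le hj1 with h | h
      · subst h
        constructor
        · intro hD
          apply hhigh 1 le_rfl (by omega) _ _ hb
          simp only [c]; split_ifs <;> omega
        · intro hD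
          apply hlow 1 le_rfl (by omega) _ _ hb
          simp only [c]; split_ifs <;> omega
      · constructor
        · intro hD
          apply hlt _ _ (by omega) (by omega) (by omega) (by omega)
          simp only [c]; split_ifs <;> omega
        · intro hD
          apply hlt _ _ (by omega) (by omega) (by omega) (by omega)
          simp only [c]; split_ifs <;> omega
    · -- F2
      intro j hj1 hj2
      rcases Nat.eq_or_lt_of_le hj2 with h | h
      · have e : b + (j+1) = b + (2*k-1) := by omega
        rw [e]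
        constructor
        · intro hD
          apply hlow j (by omega) hj2 _ _ hb2
          simp only [c]; split_ifs <;> omega
        · intro hD
          apply hhigh j (by omega) hj2 _ _ hb2
          simp only [c]; split_ifs <;> omega
      · constructor
        · intro hD
          apply hlt _ _ (by omega) (by omega) (by omega) (by omega)
          simp only [c]; split_ifs <;> omega
        · intro hD
          apply hlt _ _ (by omega) (by omega) (by omega) (by omega)
          simp only [c]; split_ifs <;> omega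
    · -- F3
      intro hiff j j' h1 h2 h3 h4
      constructor
      · intro hL
        apply hlt _ _ (by omega) (by omega) (by omega) (by omega)
        simp only [c]; split_ifs <;> first | omega | tauto
      · intro hL
        apply hlt _ _ (by omega) (by omega) (by omega) (by omega)
        simp only [c]; split_ifs <;> first | omega | tauto

end R556.CP
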